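import Pool.Agent.K7.H2.UT.Main

/-!
# The 4-universal transversal property on the projective line: exclusions

Let `F` be a finite field with `q` elements and `G` a group of permutations of the projective line
over `F`, contained in `PΓL(2, F)`, with the 4-ut property.

* If `u + v = 1` in `F` with `u`, `v` nonzero, then `-1`, `u`, `v` generate the multiplicative group.
* If `r > 1` divides `q - 1` and `-1` is an `r`-th power, then `q ≤ r ^ 4`.
* If `q = p ≥ 11` is a prime, then `p ≡ 11` modulo `12`.

The obstruction: if `H` is a proper subgroup of the multiplicative group which contains `-1`, `u` and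
`v = 1 - u`, then no element of `PΓL(2, F)` maps `{∞, 0, 1, u}` to a section of the partition
`{∞}, {0}, H`, rest.
-/

set_option autoImplicit false

namespace Pool.Agent.Results.MP_862e21_al.PrimesElevenModTwelve

open Pool.Agent.K7.H2.UT

theorem result :
    (∀ (F : Type) [Field F] [Fintype F] [DecidableEq F] (G : Subgroup (Equiv.Perm (OnePoint F))),
      G ≤ PGammaL F → HasUT 4 G →
        (∀ u v : Fˣ, (u : F) + v = 1 → Subgroup.closure {-1, u, v} = ⊤) ∧
        ∀ r : ℕ, 1 < r → r ∣ Fintype.card F - 1 →
          (Even (Fintype.card F) ∨ Even ((Fintype.card F - 1) / r)) → Fintype.card F ≤ r ^ 4) ∧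
    (∀ (p : ℕ) [Fact p.Prime], 11 ≤ p → ∀ G : Subgroup (Equiv.Perm (OnePoint (ZMod p))),
      G ≤ PGammaL (ZMod p) → HasUT 4 G → p % 12 = 11) :=
  main

end Pool.Agent.Results.MP_862e21_al.PrimesElevenModTwelve
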